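import Mathlib

/-!
# Almost all pure complexes with facet size `d` are shellable

Let `o = m`.  With probability tending to one the link of `o` is shellable (induction on `d`) and
every `(d-1)`-set `σ` avoiding `o` has a point `w` such that `σ ∪ {w}` and all `σ ∖ {x} ∪ {w, o}`,
`x ∈ σ`, are facets (union bound).  Whenever both hold the complex is shellable: first the star of
`o`, then the facets `σ ∪ {w}`, then all the others.
-/

namespace Pool.Agent.Results.MP_87030c_co.AlmostAllShellable

open Finset Filter Topology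

/-- The simplicial complex generated by a family of finite sets: all subsets of its members. -/
def gen (S : Set (Finset ℕ)) : Set (Finset ℕ) := {σ | ∃ F ∈ S, σ ⊆ F}

/-- `σ` is a facet (a face maximal under inclusion) of the complex `K`. -/
def IsFacet (K : Set (Finset ℕ)) (σ : Finset ℕ) : Prop := Maximal (fun τ => τ ∈ K) σ

/-- Shellability. -/
def Shellable (d : ℕ) (C : Finset (Finset ℕ)) : Prop :=
  ∃ l : List (Finset ℕ), l.Nodup ∧ l.toFinset = C ∧
    ∀ (j : ℕ) (hj : j < l.length), 1 ≤ j →
      ∀ σ, IsFacet (gen {l[j]} ∩ gen {F | F ∈ l.take j}) σ → σ.card + 1 = d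

/-- The pure complexes with facet size `d` on `[m] = {1, …, m}`, given by their facet sets: all
families of `d`-element subsets of `{1, …, m}`. -/
def pureComplexes (d m : ℕ) : Finset (Finset (Finset ℕ)) := ((Icc 1 m).powersetCard d).powerset

/-- Inductive form of shellability (facets of size `d` are added one at a time). -/
inductive Sh (d : ℕ) : Finset (Finset ℕ) → Prop
  | empty : Sh d ∅
  | step (C : Finset (Finset ℕ)) (F : Finset ℕ) (h : Sh d C) (hF : F ∉ C) (hc : F.card = d)
      (cond : ∀ G ∈ C, ∃ x ∈ F, x ∉ G ∧ ∃ H ∈ C, F.erase x ⊆ H) : Sh d (insert F C)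

/-- link shellable implies star shellable -/
lemma Sh.star {d : ℕ} {L : Finset (Finset ℕ)} (h : Sh d L) (o : ℕ) (ho : ∀ σ ∈ L, o ∉ σ) :
    Sh (d + 1) (L.image (insert o)) := by
  induction h with
  | empty => simpa using Sh.empty
  | step C F h hF hc cond ih =>
    have hoF : o ∉ F := ho F (mem_insert_self _ _)
    have hoC : ∀ σ ∈ C, o ∉ σ := fun σ hσ => ho σ (mem_insert_of_mem hσ)
    rw [image_insert]
    refine Sh.step _ _ (ih hoC) ?_ ?_ ?_
    · intro hmem
      rw [mem_image] at hmem
      obtain ⟨G, hG, hGF⟩ := hmem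
      have : G = F := by
        have h1 : (insert o G).erase o = (insert o F).erase o := by rw [hGF]
        rwa [erase_insert (hoC G hG), erase_insert hoF] at h1
      exact hF (this ▸ hG)
    · rw [card_insert_of_notMem hoF, hc]
    · intro G' hG'
      rw [mem_image] at hG'
      obtain ⟨G, hG, rfl⟩ := hG'
      obtain ⟨x, hxF, hxG, H, hH, hsub⟩ := cond G hG
      have hxo : x ≠ o := fun e => hoF (e ▸ hxF)
      refine ⟨x, mem_insert_of_mem hxF, ?_, insert o H, mem_image_of_mem _ hH, ?_⟩
      · simp [hxo, hxG]
      · rw [erase_insert_of_ne hxo.symm]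
        exact insert_subset_insert _ hsub

/-- adding a set of facets each of which can be added at any time -/
lemma Sh.add {d : ℕ} {S : Finset (Finset ℕ)} (h : Sh d S) (A : Finset (Finset ℕ))
    (hA : ∀ F ∈ A, F ∉ S → F.card = d ∧ ∀ T : Finset (Finset ℕ), S ⊆ T → T ⊆ S ∪ A → F ∉ T →
      ∀ G ∈ T, ∃ x ∈ F, x ∉ G ∧ ∃ H ∈ T, F.erase x ⊆ H) :
    Sh d (S ∪ A) := by
  classical
  have key : ∀ B : Finset (Finset ℕ), B ⊆ A → Sh d (S ∪ B) := by
    intro B
    induction B using Finset.induction_on with
    | empty => intro _; simpa using h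
    | insert F B hFB ih =>
      intro hB
      have hB' : B ⊆ A := (subset_insert _ _).trans hB
      have hFA : F ∈ A := hB (mem_insert_self _ _)
      rw [union_insert]
      by_cases hFS : F ∈ S ∪ B
      · rw [insert_eq_of_mem hFS]; exact ih hB'
      · have hFS' : F ∉ S := fun hh => hFS (mem_union_left _ hh)
        obtain ⟨hc, hcond⟩ := hA F hFA hFS'
        exact Sh.step _ _ (ih hB') hFS hc
          (hcond _ subset_union_left (union_subset_union_right hB') hFS)
  exact key A subset_rfl

/-- The link of `o` in `C` (as a family of `d`-subsets of `V`). -/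
def link (d : ℕ) (V : Finset ℕ) (o : ℕ) (C : Finset (Finset ℕ)) : Finset (Finset ℕ) :=
  (V.powersetCard d).filter (fun σ => insert o σ ∈ C)

/-- The local condition at a `d`-set `σ` of `V`. -/
def Loc (V : Finset ℕ) (o : ℕ) (C : Finset (Finset ℕ)) (σ : Finset ℕ) : Prop :=
  ∃ w ∈ V \ σ, insert w σ ∈ C ∧ ∀ x ∈ σ, insert o (insert w (σ.erase x)) ∈ C

/-- deterministic criterion -/
theorem criterion {d : ℕ} {V : Finset ℕ} {o : ℕ} (ho : o ∉ V) {C : Finset (Finset ℕ)}
    (hC : C ⊆ (insert o V).powersetCard (d + 1)) (hL : Sh d (link d V o C))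
    (hloc : ∀ σ ∈ V.powersetCard d, Loc V o C σ) : Sh (d + 1) C := by
  classical
  set S := (link d V o C).image (insert o) with hS
  have hSC : S ⊆ C := by
    intro F hF
    rw [hS, mem_image] at hF
    obtain ⟨σ, hσ, rfl⟩ := hF
    exact (mem_filter.mp hσ).2
  have hSmem : ∀ F ∈ C, o ∈ F → F ∈ S := by
    intro F hF hoF
    rw [hS, mem_image]
    have hF' := mem_powersetCard.mp (hC hF)
    refine ⟨F.erase o, ?_, insert_erase hoF⟩
    rw [link, mem_filter, mem_powersetCard]
    refine ⟨⟨?_, ?_⟩, ?_⟩
    · intro y hy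
      rw [mem_erase] at hy
      have := hF'.1 hy.2
      rw [mem_insert] at this
      exact this.resolve_left hy.1
    · rw [card_erase_of_mem hoF, hF'.2]; rfl
    · rw [insert_erase hoF]; exact hF
  have hstar : Sh (d + 1) S := by
    refine hL.star o ?_
    intro σ hσ hoσ
    exact ho ((mem_powersetCard.mp (mem_filter.mp hσ).1).1 hoσ)
  -- the facets of the second kind
  set A := C.filter (fun F => o ∉ F ∧ ∃ σ ∈ V.powersetCard d, ∃ w ∈ V \ σ, F = insert w σ ∧
    ∀ x ∈ σ, insert o (insert w (σ.erase x)) ∈ C) with hA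
  have h2 : Sh (d + 1) (S ∪ A) := by
    refine hstar.add A ?_
    intro F hF hFS
    rw [hA, mem_filter] at hF
    obtain ⟨hFC, hoF, σ, hσ, w, hw, rfl, hx⟩ := hF
    rw [mem_powersetCard] at hσ
    rw [Finset.mem_sdiff] at hw
    refine ⟨(mem_powersetCard.mp (hC hFC)).2, ?_⟩
    intro T hST hTSA hFT G hG
    -- every face `F.erase x` with `x ∈ σ` is present
    have hpres : ∀ x ∈ σ, ∃ H ∈ T, (insert w σ).erase x ⊆ H := by
      intro x hxσ
      refine ⟨insert o (insert w (σ.erase x)), hST (hSmem _ (hx x hxσ) (mem_insert_self _ _)), ?_⟩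
      have hwx : w ≠ x := fun e => hw.2 (e ▸ hxσ)
      rw [erase_insert_of_ne hwx]
      exact subset_insert _ _
    by_cases hσG : σ ⊆ G
    · -- then `w ∉ G`
      have hwG : w ∉ G := by
        intro hwG
        have hsub : insert w σ ⊆ G := insert_subset hwG hσG
        have hGcard : G.card = d + 1 := by
          have hGC : G ∈ C := by
            have := hTSA hG
            rw [mem_union] at this
            rcases this with h | h
            · exact hSC h
            · exact (mem_filter.mp h).1
          exact (mem_powersetCard.mp (hC hGC)).2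
        have : insert w σ = G := by
          refine eq_of_subset_of_card_le hsub ?_
          rw [hGcard, card_insert_of_notMem hw.2, hσ.2]
        exact hFT (this ▸ hG)
      exact ⟨w, mem_insert_self _ _, hwG, G, hG, by rw [erase_insert hw.2]; exact hσG⟩
    · rw [not_subset] at hσG
      obtain ⟨x, hxσ, hxG⟩ := hσG
      obtain ⟨H, hH, hsub⟩ := hpres x hxσ
      exact ⟨x, mem_insert_of_mem hxσ, hxG, H, hH, hsub⟩
  have h3 : Sh (d + 1) ((S ∪ A) ∪ C) := by
    refine h2.add C ?_
    intro F hFC hFSA
    have hFcard := (mem_powersetCard.mp (hC hFC)).2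
    refine ⟨hFcard, ?_⟩
    intro T hST hTSA hFT G hG
    have hoF : o ∉ F := fun h => hFSA (mem_union_left _ (hSmem F hFC h))
    have hFV : F ⊆ V := by
      intro y hy
      have := (mem_powersetCard.mp (hC hFC)).1 hy
      rw [mem_insert] at this
      rcases this with rfl | h
      · exact absurd hy hoF
      · exact h
    have hGC : G ∈ C := by
      have := hTSA hG
      rw [mem_union, mem_union] at this
      rcases this with (h | h) | h
      · exact hSC h
      · exact (mem_filter.mp h).1
      · exact h
    have hGcard := (mem_powersetCard.mp (hC hGC)).2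
    have hnot : ¬ F ⊆ G := by
      intro hsub
      have : F = G := eq_of_subset_of_card_le hsub (by rw [hGcard, hFcard])
      exact hFT (this ▸ hG)
    rw [not_subset] at hnot
    obtain ⟨x, hxF, hxG⟩ := hnot
    refine ⟨x, hxF, hxG, ?_⟩
    have hσ : F.erase x ∈ V.powersetCard d := by
      rw [mem_powersetCard]
      refine ⟨(erase_subset _ _).trans hFV, ?_⟩
      rw [card_erase_of_mem hxF, hFcard]; rfl
    obtain ⟨w, hw, hwC, hwx⟩ := hloc _ hσ
    refine ⟨insert w (F.erase x), hST ?_, subset_insert _ _⟩
    refine mem_union_right _ ?_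
    rw [hA, mem_filter]
    refine ⟨hwC, ?_, F.erase x, hσ, w, hw, rfl, hwx⟩
    rw [mem_insert]
    rintro (h | h)
    · rw [Finset.mem_sdiff] at hw; exact ho (h ▸ hw.1)
    · exact hoF (mem_of_mem_erase h)
  have : (S ∪ A) ∪ C = C := by
    apply union_eq_right.mpr
    apply union_subset hSC
    exact filter_subset _ _
  rwa [this] at h3

lemma Sh.shellable {d : ℕ} {C : Finset (Finset ℕ)} (h : Sh d C) : Shellable d C := by
  classical
  induction h with
  | empty => exact ⟨[], List.nodup_nil, by simp, by intro j hj; simp at hj⟩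
  | step C F h hF hc cond ih =>
    obtain ⟨l, hnd, hl, hcond⟩ := ih
    refine ⟨l ++ [F], ?_, ?_, ?_⟩
    · rw [List.nodup_append]
      refine ⟨hnd, List.nodup_singleton _, ?_⟩
      intro a ha b hb
      rw [List.mem_singleton] at hb
      rintro rfl
      rw [hb, ← List.mem_toFinset, hl] at ha
      exact hF ha
    · rw [List.toFinset_append, hl]
      ext x; simp
    · intro j hj h1 σ hσ
      rw [List.length_append, List.length_singleton] at hj
      rcases Nat.lt_or_ge j l.length with hjl | hjl
      · refine hcond j hjl h1 σ ?_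
        rwa [List.getElem_append_left hjl, List.take_append_of_le_length hjl.le] at hσ
      · have hj' : j = l.length := by omega
        subst hj'
        have e1 : (l ++ [F])[l.length] = F := by simp
        have e2 : (l ++ [F]).take l.length = l := by simp
        rw [e1, e2] at hσ
        obtain ⟨⟨⟨F', hF', hσF⟩, G, hG, hσG⟩, hmax⟩ := hσ
        rw [Set.mem_singleton_iff] at hF'
        subst hF'
        have hGC : G ∈ C := by
          rw [← hl, List.mem_toFinset]; exact hG
        obtain ⟨x, hxF, hxG, H, hH, hsub⟩ := cond G hGC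
        have hle : σ ⊆ F'.erase x := by
          intro y hy
          rw [mem_erase]
          exact ⟨fun e => hxG (e ▸ hσG hy), hσF hy⟩
        have hmem : F'.erase x ∈ gen {F'} ∩ gen {F | F ∈ l} := by
          refine ⟨⟨F', rfl, erase_subset _ _⟩, H, ?_, hsub⟩
          rw [← hl, List.mem_toFinset] at hH
          exact hH
        have := hmax hmem hle
        have he : σ = F'.erase x := subset_antisymm hle this
        rw [he, card_erase_of_mem hxF, hc]
        have : 0 < d := by rw [← hc]; exact card_pos.mpr ⟨x, hxF⟩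
        omega

/-- counting lemma: families avoiding disjoint blocks -/
lemma count_blocks {α ι : Type*} [DecidableEq α] [DecidableEq ι] (k : ℕ) (W : Finset ι)
    (B : ι → Finset α) (hB : ∀ w ∈ W, (B w).card = k)
    (hdisj : ∀ w ∈ W, ∀ w' ∈ W, w ≠ w' → Disjoint (B w) (B w')) (X : Finset α)
    (hX : ∀ w ∈ W, B w ⊆ X) :
    (X.powerset.filter (fun C => ∀ w ∈ W, ¬ B w ⊆ C)).card * (2 ^ k) ^ W.card ≤
      2 ^ X.card * (2 ^ k - 1) ^ W.card := by
  induction W using Finset.induction_on generalizing X with
  | empty => simp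
  | insert a W ha ih =>
    have hBa : B a ⊆ X := hX a (mem_insert_self _ _)
    have hrest := ih (fun w hw => hB w (mem_insert_of_mem hw))
      (fun w hw w' hw' hne => hdisj w (mem_insert_of_mem hw) w' (mem_insert_of_mem hw') hne)
      (X \ B a) (by
        intro w hw
        have hd := hdisj w (mem_insert_of_mem hw) a (mem_insert_self _ _)
          (fun e => ha (e ▸ hw))
        exact subset_sdiff.mpr ⟨hX w (mem_insert_of_mem hw), hd⟩)
    have hinj : (X.powerset.filter (fun C => ∀ w ∈ insert a W, ¬ B w ⊆ C)).card ≤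
        ((B a).powerset.erase (B a)).card *
          ((X \ B a).powerset.filter (fun C => ∀ w ∈ W, ¬ B w ⊆ C)).card := by
      rw [← card_product]
      refine card_le_card_of_injOn (fun C => (C ∩ B a, C \ B a)) ?_ ?_
      · intro C hC
        rw [mem_coe, mem_filter, mem_powerset] at hC
        rw [mem_coe, mem_product, mem_erase, mem_powerset, mem_filter, mem_powerset]
        refine ⟨⟨?_, inter_subset_right⟩, sdiff_subset_sdiff hC.1 subset_rfl, ?_⟩
        · intro h
          exact hC.2 a (mem_insert_self _ _) (inter_eq_right.mp h)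
        · intro w hw h
          exact hC.2 w (mem_insert_of_mem hw) (h.trans sdiff_subset)
      · intro C _ C' _ h
        simp only [Prod.mk.injEq] at h
        rw [← sdiff_union_inter C (B a), ← sdiff_union_inter C' (B a), h.1, h.2]
    have hcardA : ((B a).powerset.erase (B a)).card = 2 ^ k - 1 := by
      rw [card_erase_of_mem (mem_powerset.mpr subset_rfl), card_powerset,
        hB a (mem_insert_self _ _)]
    rw [hcardA] at hinj
    have hXc : X.card = k + (X \ B a).card := by
      have := card_sdiff_add_card_eq_card hBa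
      rw [hB a (mem_insert_self _ _)] at this
      omega
    rw [card_insert_of_notMem ha, pow_succ, pow_succ, hXc, pow_add]
    calc (X.powerset.filter (fun C => ∀ w ∈ insert a W, ¬ B w ⊆ C)).card *
          ((2 ^ k) ^ W.card * 2 ^ k)
        ≤ ((2 ^ k - 1) * ((X \ B a).powerset.filter (fun C => ∀ w ∈ W, ¬ B w ⊆ C)).card) *
          ((2 ^ k) ^ W.card * 2 ^ k) := Nat.mul_le_mul_right _ hinj
      _ = (((X \ B a).powerset.filter (fun C => ∀ w ∈ W, ¬ B w ⊆ C)).card *
            (2 ^ k) ^ W.card) * ((2 ^ k - 1) * 2 ^ k) := by ring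
      _ ≤ (2 ^ (X \ B a).card * (2 ^ k - 1) ^ W.card) * ((2 ^ k - 1) * 2 ^ k) :=
          Nat.mul_le_mul_right _ hrest
      _ = 2 ^ k * 2 ^ (X \ B a).card * ((2 ^ k - 1) ^ W.card * (2 ^ k - 1)) := by ring

/-- number of non-shellable families of `d`-subsets of `V` -/
noncomputable def bad (d : ℕ) (V : Finset ℕ) : ℕ :=
  open Classical in ((V.powersetCard d).powerset.filter (fun C => ¬ Sh d C)).card

lemma link_count {d : ℕ} {V : Finset ℕ} {o : ℕ} (ho : o ∉ V) :
    (open Classical in (((insert o V).powersetCard (d + 1)).powerset.filter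
      (fun C => ¬ Sh d (link d V o C))).card) ≤ bad d V * 2 ^ (V.powersetCard (d + 1)).card := by
  classical
  rw [bad, ← card_powerset, ← card_product]
  refine card_le_card_of_injOn
    (fun C => (link d V o C, C ∩ (V.powersetCard (d + 1)))) ?_ ?_
  · intro C hC
    rw [mem_coe, mem_filter, mem_powerset] at hC
    rw [mem_coe, mem_product, mem_filter, mem_powerset, mem_powerset]
    exact ⟨⟨filter_subset _ _, hC.2⟩, inter_subset_right⟩
  · have key : ∀ C C' : Finset (Finset ℕ), C ⊆ (insert o V).powersetCard (d + 1) →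
        C' ⊆ (insert o V).powersetCard (d + 1) → link d V o C = link d V o C' →
        C ∩ (V.powersetCard (d + 1)) = C' ∩ (V.powersetCard (d + 1)) → C ⊆ C' := by
      intro C C' hC hC' h1 h2 F hF
      have hF' := mem_powersetCard.mp (hC hF)
      by_cases hoF : o ∈ F
      · have : F.erase o ∈ link d V o C := by
          rw [link, mem_filter, mem_powersetCard]
          refine ⟨⟨?_, ?_⟩, ?_⟩
          · intro y hy
            rw [mem_erase] at hy
            have := hF'.1 hy.2
            rw [mem_insert] at this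
            exact this.resolve_left hy.1
          · rw [card_erase_of_mem hoF, hF'.2]; rfl
          · rw [insert_erase hoF]; exact hF
        rw [h1, link, mem_filter, insert_erase hoF] at this
        exact this.2
      · have : F ∈ C ∩ (V.powersetCard (d + 1)) := by
          rw [mem_inter, mem_powersetCard]
          refine ⟨hF, ?_, hF'.2⟩
          intro y hy
          have := hF'.1 hy
          rw [mem_insert] at this
          rcases this with rfl | h
          · exact absurd hy hoF
          · exact h
        rw [h2, mem_inter] at this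
        exact this.1
    intro C hC C' hC' h
    rw [mem_coe, mem_filter, mem_powerset] at hC hC'
    simp only [Prod.mk.injEq] at h
    exact subset_antisymm (key C C' hC.1 hC'.1 h.1 h.2)
      (key C' C hC'.1 hC.1 h.1.symm h.2.symm)

/-- the block of sets attached to `σ` and `w` -/
def block (o : ℕ) (σ : Finset ℕ) (w : ℕ) : Finset (Finset ℕ) :=
  insert (insert w σ) (σ.image (fun x => insert o (insert w (σ.erase x))))

lemma block_card {o w : ℕ} {σ : Finset ℕ} (hoσ : o ∉ σ) (hw : w ∉ σ) (how : o ≠ w) :
    (block o σ w).card = σ.card + 1 := by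
  rw [block, card_insert_of_notMem, card_image_of_injOn]
  · intro x hx y hy h
    simp only at h
    rw [mem_coe] at hx hy
    by_contra hne
    have h1 : y ∈ insert o (insert w (σ.erase x)) := by
      rw [mem_insert, mem_insert, mem_erase]
      exact Or.inr (Or.inr ⟨fun e => hne e.symm, hy⟩)
    rw [h, mem_insert, mem_insert, mem_erase] at h1
    rcases h1 with h1 | h1 | h1
    · exact hoσ (h1 ▸ hy)
    · exact hw (h1 ▸ hy)
    · exact h1.1 rfl
  · intro h
    rw [mem_image] at h
    obtain ⟨x, _, hx⟩ := h
    have : o ∈ insert w σ := by rw [← hx]; exact mem_insert_self _ _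
    rw [mem_insert] at this
    rcases this with h | h
    · exact how h
    · exact hoσ h

lemma block_mem_iff {o w : ℕ} {σ F : Finset ℕ} (hF : F ∈ block o σ w) : w ∈ F := by
  rw [block, mem_insert, mem_image] at hF
  rcases hF with rfl | ⟨x, _, rfl⟩
  · exact mem_insert_self _ _
  · exact mem_insert_of_mem (mem_insert_self _ _)

lemma block_sub {o w : ℕ} {σ F : Finset ℕ} (hF : F ∈ block o σ w) {y : ℕ} (hy : y ∈ F) :
    y = o ∨ y = w ∨ y ∈ σ := by
  rw [block, mem_insert, mem_image] at hF
  rcases hF with rfl | ⟨x, _, rfl⟩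
  · rw [mem_insert] at hy; tauto
  · rw [mem_insert, mem_insert, mem_erase] at hy; tauto

lemma loc_count {d : ℕ} {V : Finset ℕ} {o : ℕ} (ho : o ∉ V) {σ : Finset ℕ}
    (hσ : σ ∈ V.powersetCard d) :
    (open Classical in (((insert o V).powersetCard (d + 1)).powerset.filter
      (fun C => ¬ Loc V o C σ)).card) * (2 ^ (d + 1)) ^ (V.card - d) ≤
      2 ^ ((insert o V).powersetCard (d + 1)).card * (2 ^ (d + 1) - 1) ^ (V.card - d) := by
  classical
  rw [mem_powersetCard] at hσ
  have hoσ : o ∉ σ := fun h => ho (hσ.1 h)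
  have hW : (V \ σ).card = V.card - d := by
    rw [card_sdiff_of_subset hσ.1, hσ.2]
  have h := count_blocks (d + 1) (V \ σ) (block o σ) (by
      intro w hw
      rw [Finset.mem_sdiff] at hw
      rw [block_card hoσ hw.2 (fun e => ho (e ▸ hw.1)), hσ.2]) (by
      intro w hw w' hw' hne
      rw [Finset.mem_sdiff] at hw hw'
      rw [disjoint_left]
      intro F hF hF'
      have h1 := block_mem_iff hF
      rcases block_sub hF' h1 with h | h | h
      · exact ho (h ▸ hw.1)
      · exact hne h
      · exact hw.2 h) ((insert o V).powersetCard (d + 1)) (by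
      intro w hw F hF
      rw [Finset.mem_sdiff] at hw
      rw [mem_powersetCard]
      constructor
      · intro y hy
        rw [mem_insert]
        rcases block_sub hF hy with h | h | h
        · exact Or.inl h
        · exact Or.inr (h ▸ hw.1)
        · exact Or.inr (hσ.1 h)
      · rw [block, mem_insert, mem_image] at hF
        rcases hF with rfl | ⟨x, hx, rfl⟩
        · rw [card_insert_of_notMem hw.2, hσ.2]
        · rw [card_insert_of_notMem, card_insert_of_notMem, card_erase_of_mem hx, hσ.2]
          · have : 0 < σ.card := card_pos.mpr ⟨x, hx⟩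
            omega
          · intro h; exact hw.2 (mem_of_mem_erase h)
          · rw [mem_insert, mem_erase]
            rintro (h | h)
            · exact ho (h ▸ hw.1)
            · exact hoσ h.2)
  rw [hW] at h
  refine le_trans (Nat.mul_le_mul_right _ (card_le_card ?_)) h
  intro C hC
  rw [mem_filter] at hC ⊢
  refine ⟨hC.1, ?_⟩
  intro w hw hsub
  apply hC.2
  refine ⟨w, hw, hsub (mem_insert_self _ _), ?_⟩
  intro x hx
  exact hsub (mem_insert_of_mem (mem_image_of_mem _ hx))

lemma bad_zero (V : Finset ℕ) : bad 0 V = 0 := by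
  classical
  rw [bad, card_eq_zero, filter_eq_empty_iff]
  intro C hC hn
  apply hn
  rw [mem_powerset, powersetCard_zero] at hC
  rcases subset_singleton_iff.mp hC with rfl | rfl
  · exact Sh.empty
  · have := Sh.step ∅ (∅ : Finset ℕ) (Sh.empty (d := 0)) (by simp) rfl (by simp)
    simpa using this

lemma bad_succ {d : ℕ} {V : Finset ℕ} {o : ℕ} (ho : o ∉ V) :
    bad (d + 1) (insert o V) * (2 ^ (d + 1)) ^ (V.card - d) ≤
      bad d V * 2 ^ (V.powersetCard (d + 1)).card * (2 ^ (d + 1)) ^ (V.card - d) +
      V.card.choose d * (2 ^ ((insert o V).powersetCard (d + 1)).card *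
        (2 ^ (d + 1) - 1) ^ (V.card - d)) := by
  classical
  have h1 : bad (d + 1) (insert o V) ≤
      (((insert o V).powersetCard (d + 1)).powerset.filter
        (fun C => ¬ Sh d (link d V o C))).card +
      ∑ σ ∈ V.powersetCard d, (((insert o V).powersetCard (d + 1)).powerset.filter
        (fun C => ¬ Loc V o C σ)).card := by
    refine le_trans (card_le_card (t :=
      (((insert o V).powersetCard (d + 1)).powerset.filter
        (fun C => ¬ Sh d (link d V o C))) ∪
      (V.powersetCard d).biUnion (fun σ => ((insert o V).powersetCard (d + 1)).powerset.filter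
        (fun C => ¬ Loc V o C σ))) ?_) ?_
    · intro C hC
      rw [mem_filter] at hC
      rw [mem_union, mem_biUnion]
      by_cases hL : Sh d (link d V o C)
      · right
        by_contra hcon
        apply hC.2
        refine criterion ho (mem_powerset.mp hC.1) hL ?_
        intro σ hσ
        by_contra hloc
        exact hcon ⟨σ, hσ, mem_filter.mpr ⟨hC.1, hloc⟩⟩
      · left
        exact mem_filter.mpr ⟨hC.1, hL⟩
    · refine (card_union_le _ _).trans (Nat.add_le_add_left card_biUnion_le _)
  have h2 := link_count (d := d) ho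
  have h3 : (∑ σ ∈ V.powersetCard d, (((insert o V).powersetCard (d + 1)).powerset.filter
        (fun C => ¬ Loc V o C σ)).card) * (2 ^ (d + 1)) ^ (V.card - d) ≤
      V.card.choose d * (2 ^ ((insert o V).powersetCard (d + 1)).card *
        (2 ^ (d + 1) - 1) ^ (V.card - d)) := by
    rw [sum_mul]
    refine (sum_le_card_nsmul _ _ _ (fun σ hσ => loc_count ho hσ)).trans ?_
    rw [card_powersetCard, smul_eq_mul]
  calc bad (d + 1) (insert o V) * (2 ^ (d + 1)) ^ (V.card - d)
      ≤ _ * (2 ^ (d + 1)) ^ (V.card - d) := Nat.mul_le_mul_right _ h1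
    _ ≤ _ := by
        rw [add_mul]
        exact Nat.add_le_add (Nat.mul_le_mul_right _ h2) h3

/-- the failing fraction -/
noncomputable def frac (d n : ℕ) : ℝ := (bad d (Icc 1 n) : ℝ) / 2 ^ (n.choose d)

lemma frac_nonneg (d n : ℕ) : 0 ≤ frac d n := by unfold frac; positivity

lemma frac_succ {d n : ℕ} : frac (d + 1) (n + 1) ≤
    frac d n + (n.choose d : ℝ) * (1 - 1 / 2 ^ (d + 1)) ^ (n - d) := by
  have hI : Icc 1 (n + 1) = insert (n + 1) (Icc 1 n) := by
    ext x; simp only [mem_Icc, mem_insert]; omega
  have ho : n + 1 ∉ Icc 1 n := by simp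
  have h := bad_succ (d := d) ho
  rw [← hI] at h
  simp only [card_powersetCard, Nat.card_Icc, Nat.add_sub_cancel] at h
  have h' : (bad (d + 1) (Icc 1 (n + 1)) : ℝ) * (2 ^ (d + 1)) ^ (n - d) ≤
      bad d (Icc 1 n) * 2 ^ (n.choose (d + 1)) * (2 ^ (d + 1)) ^ (n - d) +
      n.choose d * (2 ^ ((n + 1).choose (d + 1)) * (2 ^ (d + 1) - 1) ^ (n - d)) := by
    have h2 : ((2 ^ (d + 1) - 1 : ℕ) : ℝ) = 2 ^ (d + 1) - 1 := by
      rw [Nat.cast_sub (Nat.one_le_two_pow)]; norm_num
    rw [← h2]
    exact_mod_cast h
  unfold frac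
  have hpos1 : (0 : ℝ) < 2 ^ ((n + 1).choose (d + 1)) := by positivity
  have hpos2 : (0 : ℝ) < (2 ^ (d + 1)) ^ (n - d) := by positivity
  rw [div_le_iff₀ hpos1]
  have e1 : (2 : ℝ) ^ ((n + 1).choose (d + 1)) = 2 ^ (n.choose d) * 2 ^ (n.choose (d + 1)) := by
    rw [← pow_add, Nat.choose_succ_succ]
  have e2 : ((1 : ℝ) - 1 / 2 ^ (d + 1)) ^ (n - d) =
      (2 ^ (d + 1) - 1) ^ (n - d) / (2 ^ (d + 1)) ^ (n - d) := by
    rw [← div_pow]
    congr 1
    field_simp
  rw [e2]
  have h3 : (bad (d + 1) (Icc 1 (n + 1)) : ℝ) ≤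
      (bad d (Icc 1 n) * 2 ^ (n.choose (d + 1)) * (2 ^ (d + 1)) ^ (n - d) +
      n.choose d * (2 ^ ((n + 1).choose (d + 1)) * (2 ^ (d + 1) - 1) ^ (n - d))) /
        (2 ^ (d + 1)) ^ (n - d) := by
    rw [le_div_iff₀ hpos2]; exact h'
  refine h3.trans (le_of_eq ?_)
  have hpos3 : (0 : ℝ) < 2 ^ (n.choose d) := by positivity
  rw [add_div, e1]
  field_simp

lemma tendsto_aux (d : ℕ) :
    Tendsto (fun n : ℕ => (n.choose d : ℝ) * (1 - 1 / 2 ^ (d + 1)) ^ (n - d)) atTop (𝓝 0) := by
  set r : ℝ := 1 - 1 / 2 ^ (d + 1) with hr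
  have hr0 : 0 < r := by
    have : (1 : ℝ) / 2 ^ (d + 1) < 1 := by
      rw [div_lt_one (by positivity)]
      exact one_lt_pow₀ (by norm_num) (by omega)
    rw [hr]; linarith
  have hr1 : r < 1 := by
    have : (0 : ℝ) < 1 / 2 ^ (d + 1) := by positivity
    rw [hr]; linarith
  have h1 : Tendsto (fun n : ℕ => ((n : ℝ) ^ d * r ^ n) * (1 / r ^ d)) atTop (𝓝 (0 * (1 / r ^ d))) :=
    (tendsto_pow_const_mul_const_pow_of_abs_lt_one d (by rw [abs_of_pos hr0]; exact hr1)).mul_const _
  rw [zero_mul] at h1
  refine squeeze_zero' ?_ ?_ h1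
  · exact Eventually.of_forall (fun n => by positivity)
  · filter_upwards [eventually_ge_atTop d] with n hn
    have e : r ^ n * (1 / r ^ d) = r ^ (n - d) := by
      rw [mul_one_div, div_eq_iff (by positivity), ← pow_add, Nat.sub_add_cancel hn]
    rw [mul_assoc, e]
    refine mul_le_mul_of_nonneg_right ?_ (by positivity)
    have := Nat.choose_le_pow n d
    exact_mod_cast this

theorem frac_tendsto (d : ℕ) : Tendsto (frac d) atTop (𝓝 0) := by
  induction d with
  | zero =>
    have : frac 0 = fun _ => 0 := by
      funext n; simp [frac, bad_zero]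
    rw [this]; exact tendsto_const_nhds
  | succ d ih =>
    rw [← tendsto_add_atTop_iff_nat 1]
    refine squeeze_zero (fun n => frac_nonneg _ _) (fun n => frac_succ) ?_
    have := ih.add (tendsto_aux d)
    rwa [add_zero] at this

/-- For every `d` (in particular for every `d ≥ 3`) almost all pure complexes with facet size `d`
on `[m]` are shellable. -/
theorem result (d : ℕ) : Tendsto (fun m : ℕ =>
    (Nat.card {C : Finset (Finset ℕ) // C ∈ pureComplexes d m ∧ Shellable d C} : ℝ) /
      (Nat.card {C : Finset (Finset ℕ) // C ∈ pureComplexes d m} : ℝ)) atTop (𝓝 1) := by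
  classical
  have h := (frac_tendsto d).const_sub 1
  rw [sub_zero] at h
  refine tendsto_of_tendsto_of_tendsto_of_le_of_le h tendsto_const_nhds ?_ ?_
  · intro m
    simp only
    have e0 : Nat.card {C : Finset (Finset ℕ) // C ∈ pureComplexes d m} = 2 ^ (m.choose d) := by
      rw [Nat.card_eq_fintype_card, Fintype.card_coe, pureComplexes, card_powerset,
        card_powersetCard, Nat.card_Icc, Nat.add_sub_cancel]
    have e1 : Nat.card {C : Finset (Finset ℕ) // C ∈ pureComplexes d m ∧ Shellable d C} =
        ((pureComplexes d m).filter (Shellable d)).card := by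
      rw [← Fintype.card_coe, ← Nat.card_eq_fintype_card]
      refine Nat.card_congr (Equiv.subtypeEquivRight ?_)
      intro C
      rw [mem_filter]
    have e2 : ((pureComplexes d m).filter (Shellable d)).card +
        ((pureComplexes d m).filter (fun C => ¬ Shellable d C)).card = 2 ^ (m.choose d) := by
      rw [card_filter_add_card_filter_not, pureComplexes, card_powerset,
        card_powersetCard, Nat.card_Icc, Nat.add_sub_cancel]
    have e3 : ((pureComplexes d m).filter (fun C => ¬ Shellable d C)).card ≤ bad d (Icc 1 m) := by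
      rw [bad]
      refine card_le_card ?_
      intro C hC
      rw [mem_filter] at hC ⊢
      exact ⟨hC.1, fun h => hC.2 h.shellable⟩
    rw [e0, e1]
    have hpos : (0 : ℝ) < 2 ^ (m.choose d) := by positivity
    have e2' : (((pureComplexes d m).filter (Shellable d)).card : ℝ) +
        (((pureComplexes d m).filter (fun C => ¬ Shellable d C)).card : ℝ) = 2 ^ (m.choose d) := by
      exact_mod_cast e2
    have e3' : (((pureComplexes d m).filter (fun C => ¬ Shellable d C)).card : ℝ) ≤
      bad d (Icc 1 m) := by exact_mod_cast e3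
    unfold frac
    push_cast
    rw [le_div_iff₀ hpos, sub_mul, one_mul, div_mul_cancel₀ _ hpos.ne']
    linarith
  · intro m
    simp only
    refine div_le_one_of_le₀ ?_ (Nat.cast_nonneg _)
    have : Finite {C : Finset (Finset ℕ) // C ∈ pureComplexes d m} := inferInstance
    exact_mod_cast Nat.card_le_card_of_injective
      (fun C : {C : Finset (Finset ℕ) // C ∈ pureComplexes d m ∧ Shellable d C} =>
        (⟨C.1, C.2.1⟩ : {C : Finset (Finset ℕ) // C ∈ pureComplexes d m}))
      (fun C C' h => by
        apply Subtype.ext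
        simpa using h)

end Pool.Agent.Results.MP_87030c_co.AlmostAllShellable
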